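import Mathlib

/-!
# The branches of the symbolic defect quasi-polynomial can have different leading coefficients

Example: `I = (x^3, x^2 y, x y z, y^2 z) = (x^3, x y, y^2) ∩ (x^2, z)` in `k[x,y,z]`. Then `I^(n)`
consists of the monomials with `x + 2 y ≥ 3 n`, `x + y ≥ 2 n`, `x + 2 z ≥ 2 n`. For every `x` there
is one candidate for a minimal generator, with `y = max (⌈(3n - x)/2⌉, 2n - x)` and
`z = ⌈(2n - x)/2⌉`; for `n < x ≤ 2n` it is minimal iff `3n - x` or `2n - x` is even, that is for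
every second `x` if `n` is even, but for all `x` if `n` is odd. This gives `2n - 2` minimal
generators outside `I^n` for even `n` and `(5n - 3)/2` for odd `n ≥ 3`.
-/

namespace Pool.Agent.Results.MP_a342dd_al.SdefectBranches

open MvPolynomial

/-! ## Definitions -/

/-- `P` is an associated prime of `R / I`: it is prime and of the form `{a : a f ∈ I}`. -/
def IsAssoc {R : Type} [CommRing R] (P I : Ideal R) : Prop :=
  P.IsPrime ∧ ∃ f : R, ∀ a : R, a ∈ P ↔ a * f ∈ I

/-- The contraction `J R_P ∩ R`, for a prime ideal `P`. -/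
noncomputable def contr {R : Type} [CommRing R] (J P : Ideal R) (hP : P.IsPrime) : Ideal R :=
  haveI := hP
  (J.map (algebraMap R (Localization.AtPrime P))).comap (algebraMap R (Localization.AtPrime P))

/-- The `n`-th symbolic power of `I`, over all associated primes: the intersection of the ideals
`I^n R_P ∩ R` over `P ∈ Ass (R/I)`. -/
noncomputable def symbPow {R : Type} [CommRing R] (I : Ideal R) (n : ℕ) : Ideal R :=
  ⨅ (P : Ideal R) (h : IsAssoc P I), contr (I ^ n) P h.1

/-- The ideal generated by the variables. -/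
noncomputable def maxIdeal (k : Type) [Field k] (r : ℕ) : Ideal (MvPolynomial (Fin r) k) :=
  Ideal.span (Set.range X)

/-- The symbolic defect `dim_k I^(n) / (I^n + m I^(n))`. -/
noncomputable def sdef {k : Type} [Field k] {r : ℕ} (I : Ideal (MvPolynomial (Fin r) k))
    (n : ℕ) : ℕ :=
  Module.finrank k (symbPow I n ⧸
    Submodule.comap (Submodule.subtype (symbPow I n)) (I ^ n ⊔ maxIdeal k r * symbPow I n))

/-- A monomial ideal: generated by monomials. -/
def IsMonomialIdeal {k : Type} [Field k] {r : ℕ} (I : Ideal (MvPolynomial (Fin r) k)) : Prop :=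
  ∃ E : Set (Fin r →₀ ℕ), I = Ideal.span ((fun s => monomial s (1 : k)) '' E)

/-! ## Monomial ideals -/

section general

variable {k : Type} [Field k] {r : ℕ}

/-- up-closed sets of exponents -/
def Up (A : (Fin r →₀ ℕ) → Prop) : Prop := ∀ m m', m ≤ m' → A m → A m'

/-- the monomial ideal of an up-closed set of exponents -/
def mid (k : Type) [Field k] (A : (Fin r →₀ ℕ) → Prop) (hA : Up A) :
    Ideal (MvPolynomial (Fin r) k) where
  carrier := {f | ∀ m ∈ f.support, A m}
  zero_mem' := by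
    intro m hm
    simp at hm
  add_mem' := by
    classical
    intro f g hf hg m hm
    rcases Finset.mem_union.mp (support_add hm) with h | h
    · exact hf m h
    · exact hg m h
  smul_mem' := by
    classical
    intro c f hf m hm
    obtain ⟨u, hu, v, hv, rfl⟩ := Finset.mem_add.mp (support_mul c f hm)
    exact hA v _ le_add_self (hf v hv)

lemma mem_mid {A : (Fin r →₀ ℕ) → Prop} {hA : Up A} {f : MvPolynomial (Fin r) k} :
    f ∈ mid k A hA ↔ ∀ m ∈ f.support, A m := Iff.rfl

lemma monomial_mem_mid {A : (Fin r →₀ ℕ) → Prop} {hA : Up A} {m : Fin r →₀ ℕ} :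
    monomial m (1 : k) ∈ mid k A hA ↔ A m := by
  classical
  rw [mem_mid, support_monomial, if_neg one_ne_zero]
  simp

/-- the up-closure -/
def upc (E : Set (Fin r →₀ ℕ)) (m : Fin r →₀ ℕ) : Prop := ∃ e ∈ E, e ≤ m

lemma upc_up (E : Set (Fin r →₀ ℕ)) : Up (upc E) := by
  rintro m m' h ⟨e, he, hm⟩
  exact ⟨e, he, hm.trans h⟩

lemma span_eq_mid (E : Set (Fin r →₀ ℕ)) :
    Ideal.span ((fun s => monomial s (1 : k)) '' E) = mid k (upc E) (upc_up E) := by
  ext f
  rw [mem_ideal_span_monomial_image, mem_mid]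
  rfl

/-- sums of up-closed sets -/
def sm (A B : (Fin r →₀ ℕ) → Prop) (m : Fin r →₀ ℕ) : Prop := ∃ u v, A u ∧ B v ∧ m = u + v

lemma sm_up {A B : (Fin r →₀ ℕ) → Prop} (hA : Up A) : Up (sm A B) := by
  rintro m m' h ⟨u, v, hu, hv, rfl⟩
  refine ⟨u + (m' - (u + v)), v, hA _ _ le_self_add hu, hv, ?_⟩
  rw [add_right_comm, add_tsub_cancel_of_le h]

lemma mid_mul {A B : (Fin r →₀ ℕ) → Prop} (hA : Up A) (hB : Up B) :
    mid k A hA * mid k B hB = mid k (sm A B) (sm_up hA) := by
  classical
  apply le_antisymm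
  · rw [Ideal.mul_le]
    intro f hf g hg m hm
    obtain ⟨u, hu, v, hv, rfl⟩ := Finset.mem_add.mp (support_mul f g hm)
    exact ⟨u, v, hf u hu, hg v hv, rfl⟩
  · intro f hf
    rw [f.as_sum]
    apply Ideal.sum_mem
    intro m hm
    obtain ⟨u, v, hu, hv, rfl⟩ := hf m hm
    have : monomial (u + v) (coeff (u + v) f) = monomial u (coeff (u + v) f) * monomial v 1 := by
      rw [monomial_mul, mul_one]
    rw [this]
    apply Ideal.mul_mem_mul
    · intro w hw
      have := support_monomial_subset hw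
      rw [Finset.mem_singleton] at this
      rw [this]; exact hu
    · exact monomial_mem_mid.mpr hv

lemma mid_congr {A B : (Fin r →₀ ℕ) → Prop} {hA : Up A} {hB : Up B} (h : ∀ m, A m ↔ B m) :
    mid k A hA = mid k B hB := by
  ext f
  rw [mem_mid, mem_mid]
  simp only [h]

/-- the least exponents multiply without cancellation -/
lemma trail {Γ : Type} [AddCommMonoid Γ] [LinearOrder Γ] [IsOrderedCancelAddMonoid Γ]
    (W : (Fin r →₀ ℕ) →+ Γ) (hW : Function.Injective W) {s f : MvPolynomial (Fin r) k}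
    (hs : s ≠ 0) (hf : f ≠ 0) :
    ∃ u ∈ s.support, ∃ v ∈ f.support, (∀ u' ∈ s.support, W u ≤ W u') ∧ u + v ∈ (s * f).support := by
  classical
  obtain ⟨u, hu, hmu⟩ := Finset.exists_min_image s.support W (support_nonempty.mpr hs)
  obtain ⟨v, hv, hmv⟩ := Finset.exists_min_image f.support W (support_nonempty.mpr hf)
  refine ⟨u, hu, v, hv, hmu, ?_⟩
  rw [mem_support_iff, coeff_mul, Finset.sum_eq_single (u, v)]
  · exact mul_ne_zero (mem_support_iff.mp hu) (mem_support_iff.mp hv)
  · rintro ⟨u', v'⟩ huv hne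
    rw [Finset.HasAntidiagonal.mem_antidiagonal] at huv
    by_contra hcon
    have hu' : u' ∈ s.support := by
      rw [mem_support_iff]; intro h; apply hcon; rw [h, zero_mul]
    have hv' : v' ∈ f.support := by
      rw [mem_support_iff]; intro h; apply hcon; rw [h, mul_zero]
    have h1 := hmu u' hu'
    have h2 := hmv v' hv'
    have h3 : W u' + W v' = W u + W v := by rw [← map_add, ← map_add, huv]
    have h4 : W u = W u' := by
      by_contra hne'
      have h5 : W u < W u' := lt_of_le_of_ne h1 hne'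
      have h6 := add_lt_add_of_lt_of_le h5 h2
      rw [h3] at h6
      exact lt_irrefl _ h6
    have h5 := hW h4
    subst h5
    have h6 : v' = v := by
      have := add_left_cancel huv
      exact this
    exact hne (by rw [h6])
  · intro h
    exfalso
    apply h
    rw [Finset.HasAntidiagonal.mem_antidiagonal]

/-- the prime ideal generated by some of the variables, as an exponent condition -/
def prm (P : Finset (Fin r)) (m : Fin r →₀ ℕ) : Prop := ∃ i ∈ P, m i ≠ 0

lemma prm_up (P : Finset (Fin r)) : Up (prm P) := by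
  rintro m m' h ⟨i, hi, hm⟩
  refine ⟨i, hi, ?_⟩
  have := h i
  omega

/-- the weight used to find the trailing monomial -/
noncomputable def wt (P : Finset (Fin r)) : (Fin r →₀ ℕ) →+ Lex (ℕ × Lex (Fin r →₀ ℕ)) where
  toFun m := toLex (∑ i ∈ P, m i, toLex m)
  map_zero' := by simp
  map_add' u v := by
    simp only [Finsupp.add_apply, Finset.sum_add_distrib]
    rfl

lemma wt_inj (P : Finset (Fin r)) : Function.Injective (wt P) := by
  intro u v h
  exact congrArg (fun x => ofLex (ofLex x).2) h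

/-- ideals given by a condition on the exponents of the variables in `P` are primary to the
prime generated by these variables -/
lemma primary (P : Finset (Fin r)) {A : (Fin r →₀ ℕ) → Prop} (hA : Up A)
    (hP : ∀ m m', (∀ i ∈ P, m i = m' i) → A m → A m') {s f : MvPolynomial (Fin r) k}
    (hs : s ∉ mid k (prm P) (prm_up P)) (h : s * f ∈ mid k A hA) : f ∈ mid k A hA := by
  classical
  set f1 : MvPolynomial (Fin r) k := ∑ m ∈ f.support.filter A, monomial m (coeff m f) with hf1
  set f2 : MvPolynomial (Fin r) k := ∑ m ∈ f.support.filter (fun m => ¬ A m),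
    monomial m (coeff m f) with hf2
  have hsum : f = f1 + f2 := by
    conv_lhs => rw [f.as_sum]
    rw [hf1, hf2, Finset.sum_filter_add_sum_filter_not]
  have h1 : f1 ∈ mid k A hA := by
    apply Ideal.sum_mem
    intro m hm w hw
    have := support_monomial_subset hw
    rw [Finset.mem_singleton] at this
    rw [this]; exact (Finset.mem_filter.mp hm).2
  have h2 : ∀ m ∈ f2.support, ¬ A m := by
    intro m hm
    have := support_sum hm
    rw [Finset.mem_biUnion] at this
    obtain ⟨w, hw, hmw⟩ := this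
    have := support_monomial_subset hmw
    rw [Finset.mem_singleton] at this
    rw [this]; exact (Finset.mem_filter.mp hw).2
  by_cases h0 : f2 = 0
  · rw [hsum, h0, add_zero]; exact h1
  · exfalso
    have hs0 : s ≠ 0 := by
      rintro rfl; exact hs (Ideal.zero_mem _)
    obtain ⟨u, hu, v, hv, hmin, huv⟩ := trail (wt P) (wt_inj P) hs0 h0
    have h3 : s * f2 ∈ mid k A hA := by
      have : s * f2 = s * f - s * f1 := by rw [hsum]; ring
      rw [this]
      exact Ideal.sub_mem _ h (Ideal.mul_mem_left _ _ h1)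
    have h4 := h3 _ huv
    apply h2 v hv
    apply hP _ _ _ h4
    -- u vanishes on P
    rw [mem_mid] at hs
    push Not at hs
    obtain ⟨w, hw, hwP⟩ := hs
    unfold prm at hwP
    push Not at hwP
    have h5 := hmin w hw
    have h6 : ∑ i ∈ P, u i ≤ ∑ i ∈ P, w i := by
      rcases Prod.Lex.toLex_le_toLex.mp h5 with h | h
      · exact h.le
      · exact h.1.le
    have h7 : ∑ i ∈ P, w i = 0 := Finset.sum_eq_zero hwP
    rw [h7, Nat.le_zero, Finset.sum_eq_zero_iff] at h6
    intro i hi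
    rw [Finsupp.add_apply, h6 i hi, zero_add]

lemma prm_isPrime (P : Finset (Fin r)) : (mid k (prm P) (prm_up P)).IsPrime := by
  refine ⟨?_, ?_⟩
  · intro h
    have : monomial 0 (1 : k) ∈ mid k (prm P) (prm_up P) := by rw [h]; trivial
    rw [monomial_mem_mid] at this
    obtain ⟨i, _, hi⟩ := this
    exact hi rfl
  · intro s f h
    by_cases hs : s ∈ mid k (prm P) (prm_up P)
    · exact Or.inl hs
    · right
      refine primary P (prm_up P) ?_ hs h
      rintro m m' hmm ⟨i, hi, hmi⟩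
      exact ⟨i, hi, by rw [← hmm i hi]; exact hmi⟩

lemma mem_contr {R : Type} [CommRing R] (J P : Ideal R) (hP : P.IsPrime) (f : R) :
    f ∈ contr J P hP ↔ ∃ s, s ∉ P ∧ s * f ∈ J := by
  unfold contr
  have := hP
  rw [Ideal.mem_comap, IsLocalization.algebraMap_mem_map_algebraMap_iff P.primeCompl]
  rfl

end general

/-! ## The example -/

section example_

variable {k : Type} [Field k]

/-- exponent vectors -/
noncomputable def e3 (x y z : ℕ) : Fin 3 →₀ ℕ := Finsupp.equivFunOnFinite.symm ![x, y, z]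

@[simp] lemma e3_0 (x y z : ℕ) : e3 x y z 0 = x := rfl
@[simp] lemma e3_1 (x y z : ℕ) : e3 x y z 1 = y := rfl
@[simp] lemma e3_2 (x y z : ℕ) : e3 x y z 2 = z := rfl

lemma le3 {m m' : Fin 3 →₀ ℕ} : m ≤ m' ↔ m 0 ≤ m' 0 ∧ m 1 ≤ m' 1 ∧ m 2 ≤ m' 2 := by
  constructor
  · intro h; exact ⟨h 0, h 1, h 2⟩
  · rintro ⟨h0, h1, h2⟩ i
    fin_cases i
    · exact h0
    · exact h1
    · exact h2

lemma ext3 {m m' : Fin 3 →₀ ℕ} (h0 : m 0 = m' 0) (h1 : m 1 = m' 1) (h2 : m 2 = m' 2) :
    m = m' := by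
  ext i
  fin_cases i
  · exact h0
  · exact h1
  · exact h2

/-- the exponents of the generators `x^3, x^2 y, x y z, y^2 z` -/
def gensE : Set (Fin 3 →₀ ℕ) := {e3 3 0 0, e3 2 1 0, e3 1 1 1, e3 0 2 1}

/-- the ideal `(x^3, x^2 y, x y z, y^2 z)` -/
noncomputable def ex (k : Type) [Field k] : Ideal (MvPolynomial (Fin 3) k) :=
  Ideal.span ((fun s => monomial s (1 : k)) '' gensE)

/-- exponents of the monomials in the `n`-th power -/
def Pw (n : ℕ) (m : Fin 3 →₀ ℕ) : Prop :=
  ∃ a b c d : ℕ, a + b + c + d = n ∧ 3 * a + 2 * b + c ≤ m 0 ∧ b + c + 2 * d ≤ m 1 ∧ c + d ≤ m 2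

lemma Pw_up (n : ℕ) : Up (Pw n) := by
  rintro m m' h ⟨a, b, c, d, h1, h2, h3, h4⟩
  rw [le3] at h
  exact ⟨a, b, c, d, h1, by omega, by omega, by omega⟩

lemma ex_eq : ex k = mid k (Pw 1) (Pw_up 1) := by
  unfold ex
  rw [span_eq_mid]
  apply mid_congr
  intro m
  constructor
  · rintro ⟨e, he, hm⟩
    rw [le3] at hm
    rcases he with rfl | rfl | rfl | rfl
    · exact ⟨1, 0, 0, 0, by omega, by simpa using hm.1, by omega, by omega⟩
    · simp only [e3_0, e3_1, e3_2] at hm
      exact ⟨0, 1, 0, 0, by omega, by omega, by omega, by omega⟩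
    · simp only [e3_0, e3_1, e3_2] at hm
      exact ⟨0, 0, 1, 0, by omega, by omega, by omega, by omega⟩
    · simp only [e3_0, e3_1, e3_2] at hm
      exact ⟨0, 0, 0, 1, by omega, by omega, by omega, by omega⟩
  · rintro ⟨a, b, c, d, h1, h2, h3, h4⟩
    have : (a = 1 ∧ b = 0 ∧ c = 0 ∧ d = 0) ∨ (a = 0 ∧ b = 1 ∧ c = 0 ∧ d = 0) ∨
        (a = 0 ∧ b = 0 ∧ c = 1 ∧ d = 0) ∨ (a = 0 ∧ b = 0 ∧ c = 0 ∧ d = 1) := by omega
    rcases this with h | h | h | h
    · refine ⟨e3 3 0 0, by simp [gensE], ?_⟩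
      rw [le3]; simp only [e3_0, e3_1, e3_2]; omega
    · refine ⟨e3 2 1 0, by simp [gensE], ?_⟩
      rw [le3]; simp only [e3_0, e3_1, e3_2]; omega
    · refine ⟨e3 1 1 1, by simp [gensE], ?_⟩
      rw [le3]; simp only [e3_0, e3_1, e3_2]; omega
    · refine ⟨e3 0 2 1, by simp [gensE], ?_⟩
      rw [le3]; simp only [e3_0, e3_1, e3_2]; omega

lemma ex_pow (n : ℕ) : ex k ^ n = mid k (Pw n) (Pw_up n) := by
  induction n with
  | zero =>
    rw [pow_zero, Ideal.one_eq_top]
    symm
    rw [Ideal.eq_top_iff_one]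
    intro m _
    exact ⟨0, 0, 0, 0, by omega, by omega, by omega, by omega⟩
  | succ n ih =>
    rw [pow_succ, ih, ex_eq, mid_mul]
    apply mid_congr
    intro m
    constructor
    · rintro ⟨u, v, ⟨a, b, c, d, h1, h2, h3, h4⟩, ⟨a', b', c', d', h1', h2', h3', h4'⟩, rfl⟩
      refine ⟨a + a', b + b', c + c', d + d', by omega, ?_, ?_, ?_⟩ <;>
      · simp only [Finsupp.add_apply]; omega
    · rintro ⟨a, b, c, d, h1, h2, h3, h4⟩
      have : 0 < a ∨ 0 < b ∨ 0 < c ∨ 0 < d := by omega
      rcases this with h | h | h | h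
      · refine ⟨e3 (m 0 - 3) (m 1) (m 2), e3 3 0 0, ⟨a - 1, b, c, d, by omega, ?_, ?_, ?_⟩,
          ⟨1, 0, 0, 0, by omega, ?_, ?_, ?_⟩, ?_⟩
        all_goals try (simp only [e3_0, e3_1, e3_2]; omega)
        apply ext3 <;> simp only [Finsupp.add_apply, e3_0, e3_1, e3_2] <;> omega
      · refine ⟨e3 (m 0 - 2) (m 1 - 1) (m 2), e3 2 1 0, ⟨a, b - 1, c, d, by omega, ?_, ?_, ?_⟩,
          ⟨0, 1, 0, 0, by omega, ?_, ?_, ?_⟩, ?_⟩
        all_goals try (simp only [e3_0, e3_1, e3_2]; omega)
        apply ext3 <;> simp only [Finsupp.add_apply, e3_0, e3_1, e3_2] <;> omega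
      · refine ⟨e3 (m 0 - 1) (m 1 - 1) (m 2 - 1), e3 1 1 1,
          ⟨a, b, c - 1, d, by omega, ?_, ?_, ?_⟩, ⟨0, 0, 1, 0, by omega, ?_, ?_, ?_⟩, ?_⟩
        all_goals try (simp only [e3_0, e3_1, e3_2]; omega)
        apply ext3 <;> simp only [Finsupp.add_apply, e3_0, e3_1, e3_2] <;> omega
      · refine ⟨e3 (m 0) (m 1 - 2) (m 2 - 1), e3 0 2 1,
          ⟨a, b, c, d - 1, by omega, ?_, ?_, ?_⟩, ⟨0, 0, 0, 1, by omega, ?_, ?_, ?_⟩, ?_⟩
        all_goals try (simp only [e3_0, e3_1, e3_2]; omega)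
        apply ext3 <;> simp only [Finsupp.add_apply, e3_0, e3_1, e3_2] <;> omega

/-- exponents in the primary component at `(x,y)` -/
def A1 (n : ℕ) (m : Fin 3 →₀ ℕ) : Prop := 3 * n ≤ m 0 + 2 * m 1 ∧ 2 * n ≤ m 0 + m 1
/-- exponents in the primary component at `(x,z)` -/
def A2 (n : ℕ) (m : Fin 3 →₀ ℕ) : Prop := 2 * n ≤ m 0 + 2 * m 2

lemma A1_up (n : ℕ) : Up (A1 n) := by
  rintro m m' h ⟨h1, h2⟩
  rw [le3] at h
  constructor <;> omega

lemma A2_up (n : ℕ) : Up (A2 n) := by
  intro m m' h h1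
  rw [le3] at h
  unfold A2 at h1 ⊢
  omega

lemma Pw_A1 {n : ℕ} {m : Fin 3 →₀ ℕ} (h : Pw n m) : A1 n m := by
  obtain ⟨a, b, c, d, h1, h2, h3, h4⟩ := h
  constructor <;> omega

lemma Pw_A2 {n : ℕ} {m : Fin 3 →₀ ℕ} (h : Pw n m) : A2 n m := by
  obtain ⟨a, b, c, d, h1, h2, h3, h4⟩ := h
  unfold A2
  omega

/-- the prime `(x,y)` -/
noncomputable def p1 (k : Type) [Field k] : Ideal (MvPolynomial (Fin 3) k) :=
  mid k (prm {0, 1}) (prm_up _)
/-- the prime `(x,z)` -/
noncomputable def p2 (k : Type) [Field k] : Ideal (MvPolynomial (Fin 3) k) :=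
  mid k (prm {0, 2}) (prm_up _)

lemma prm1 (m : Fin 3 →₀ ℕ) : prm {0, 1} m ↔ (m 0 ≠ 0 ∨ m 1 ≠ 0) := by
  unfold prm
  simp

lemma prm2 (m : Fin 3 →₀ ℕ) : prm {0, 2} m ↔ (m 0 ≠ 0 ∨ m 2 ≠ 0) := by
  unfold prm
  simp

lemma prim1 (n : ℕ) {s f : MvPolynomial (Fin 3) k} (hs : s ∉ p1 k)
    (h : s * f ∈ mid k (A1 n) (A1_up n)) : f ∈ mid k (A1 n) (A1_up n) := by
  refine primary {0, 1} (A1_up n) ?_ hs h
  intro m m' hm h
  have h0 := hm 0 (by simp)
  have h1 := hm 1 (by simp)
  unfold A1 at h ⊢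
  rw [← h0, ← h1]
  exact h

lemma prim2 (n : ℕ) {s f : MvPolynomial (Fin 3) k} (hs : s ∉ p2 k)
    (h : s * f ∈ mid k (A2 n) (A2_up n)) : f ∈ mid k (A2 n) (A2_up n) := by
  refine primary {0, 2} (A2_up n) ?_ hs h
  intro m m' hm h
  have h0 := hm 0 (by simp)
  have h1 := hm 2 (by simp)
  unfold A2 at h ⊢
  rw [← h0, ← h1]
  exact h

lemma monomial_mul_mem {r : ℕ} {A : (Fin r →₀ ℕ) → Prop} {hA : Up A} (u : Fin r →₀ ℕ)
    (f : MvPolynomial (Fin r) k) (h : ∀ m ∈ f.support, A (u + m)) :
    monomial u 1 * f ∈ mid k A hA := by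
  classical
  intro m hm
  obtain ⟨u', hu', v, hv, rfl⟩ := Finset.mem_add.mp (support_mul _ _ hm)
  have := support_monomial_subset hu'
  rw [Finset.mem_singleton] at this
  rw [this]
  exact h v hv

lemma contr1 (n : ℕ) (h : (p1 k).IsPrime) :
    contr (ex k ^ n) (p1 k) h = mid k (A1 n) (A1_up n) := by
  ext f
  rw [mem_contr, ex_pow]
  constructor
  · rintro ⟨s, hs, hsf⟩
    exact prim1 n hs (fun m hm => Pw_A1 (hsf m hm))
  · intro hf
    refine ⟨monomial (e3 0 0 n) 1, ?_, ?_⟩
    · unfold p1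
      rw [monomial_mem_mid, prm1]
      simp
    · apply monomial_mul_mem
      intro m hm
      obtain ⟨h1, h2⟩ := hf m hm
      by_cases hx : m 0 < n
      · refine ⟨0, 0, m 0, n - m 0, by omega, ?_, ?_, ?_⟩ <;>
        · simp only [Finsupp.add_apply, e3_0, e3_1, e3_2]; omega
      · by_cases hx2 : m 0 ≤ 3 * n
        · refine ⟨(m 0 - n) / 2, 0, n - (m 0 - n) / 2, 0, by omega, ?_, ?_, ?_⟩ <;>
          · simp only [Finsupp.add_apply, e3_0, e3_1, e3_2]; omega
        · refine ⟨n, 0, 0, 0, by omega, ?_, ?_, ?_⟩ <;>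
          · simp only [Finsupp.add_apply, e3_0, e3_1, e3_2]; omega

lemma contr2 (n : ℕ) (h : (p2 k).IsPrime) :
    contr (ex k ^ n) (p2 k) h = mid k (A2 n) (A2_up n) := by
  ext f
  rw [mem_contr, ex_pow]
  constructor
  · rintro ⟨s, hs, hsf⟩
    exact prim2 n hs (fun m hm => Pw_A2 (hsf m hm))
  · intro hf
    refine ⟨monomial (e3 0 (2 * n) 0) 1, ?_, ?_⟩
    · unfold p2
      rw [monomial_mem_mid, prm2]
      simp
    · apply monomial_mul_mem
      intro m hm
      have h1 := hf m hm
      unfold A2 at h1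
      by_cases hx : n ≤ m 2
      · refine ⟨0, 0, 0, n, by omega, ?_, ?_, ?_⟩ <;>
        · simp only [Finsupp.add_apply, e3_0, e3_1, e3_2]; omega
      · refine ⟨0, n - m 2, 0, m 2, by omega, ?_, ?_, ?_⟩ <;>
        · simp only [Finsupp.add_apply, e3_0, e3_1, e3_2]; omega

lemma Pw_one_iff (m : Fin 3 →₀ ℕ) : Pw 1 m ↔ A1 1 m ∧ A2 1 m := by
  constructor
  · intro h; exact ⟨Pw_A1 h, Pw_A2 h⟩
  · rintro ⟨⟨h1, h2⟩, h3⟩
    unfold A2 at h3
    by_cases h : 3 ≤ m 0
    · exact ⟨1, 0, 0, 0, by omega, by omega, by omega, by omega⟩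
    · by_cases h' : 2 ≤ m 0
      · exact ⟨0, 1, 0, 0, by omega, by omega, by omega, by omega⟩
      · by_cases h'' : 1 ≤ m 0
        · exact ⟨0, 0, 1, 0, by omega, by omega, by omega, by omega⟩
        · exact ⟨0, 0, 0, 1, by omega, by omega, by omega, by omega⟩

lemma assoc1 : IsAssoc (p1 k) (ex k) := by
  refine ⟨prm_isPrime _, monomial (e3 2 0 1) 1, fun a => ⟨fun ha => ?_, fun ha => ?_⟩⟩
  · rw [mul_comm, ex_eq]
    apply monomial_mul_mem
    intro m hm
    have := ha m hm
    rw [prm1] at this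
    rw [Pw_one_iff]
    unfold A1 A2
    simp only [Finsupp.add_apply, e3_0, e3_1, e3_2]
    omega
  · intro m hm
    rw [prm1]
    rw [ex_eq] at ha
    have : m + e3 2 0 1 ∈ (a * monomial (e3 2 0 1) 1).support := by
      rw [mem_support_iff, coeff_mul_monomial, mul_one]
      exact mem_support_iff.mp hm
    have := Pw_A1 (ha _ this)
    unfold A1 at this
    simp only [Finsupp.add_apply, e3_0, e3_1] at this
    omega

lemma assoc2 : IsAssoc (p2 k) (ex k) := by
  refine ⟨prm_isPrime _, monomial (e3 1 1 0) 1, fun a => ⟨fun ha => ?_, fun ha => ?_⟩⟩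
  · rw [mul_comm, ex_eq]
    apply monomial_mul_mem
    intro m hm
    have := ha m hm
    rw [prm2] at this
    rw [Pw_one_iff]
    unfold A1 A2
    simp only [Finsupp.add_apply, e3_0, e3_1, e3_2]
    omega
  · intro m hm
    rw [prm2]
    rw [ex_eq] at ha
    have : m + e3 1 1 0 ∈ (a * monomial (e3 1 1 0) 1).support := by
      rw [mem_support_iff, coeff_mul_monomial, mul_one]
      exact mem_support_iff.mp hm
    have := Pw_A2 (ha _ this)
    unfold A2 at this
    simp only [Finsupp.add_apply, e3_0, e3_2] at this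
    omega

lemma assoc_cases (P : Ideal (MvPolynomial (Fin 3) k)) (hP : IsAssoc P (ex k)) :
    P = p1 k ∨ P = p2 k := by
  obtain ⟨hprime, f, hf⟩ := hP
  have hfI : f ∉ ex k := by
    intro h
    apply hprime.ne_top
    rw [Ideal.eq_top_iff_one, hf, one_mul]
    exact h
  have hle : ex k ≤ P := by
    intro a ha
    rw [hf]
    exact Ideal.mul_mem_right _ _ ha
  -- P contains x and one of y, z
  have hX0 : (X 0 : MvPolynomial (Fin 3) k) ∈ P := by
    have h1 : (X 0 : MvPolynomial (Fin 3) k) ^ 3 ∈ P := by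
      apply hle
      rw [ex_eq, X_pow_eq_monomial, monomial_mem_mid]
      exact ⟨1, 0, 0, 0, by omega, by simp, by simp, by simp⟩
    exact hprime.mem_of_pow_mem 3 h1
  have hyz : (X 1 : MvPolynomial (Fin 3) k) ∈ P ∨ (X 2 : MvPolynomial (Fin 3) k) ∈ P := by
    have h1 : (X 1 : MvPolynomial (Fin 3) k) ^ 2 * X 2 ∈ P := by
      apply hle
      rw [ex_eq, X_pow_eq_monomial, X, monomial_mul, one_mul, monomial_mem_mid]
      exact ⟨0, 0, 0, 1, by omega, by simp, by simp, by simp⟩
    rcases hprime.mem_or_mem h1 with h | h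
    · exact Or.inl (hprime.mem_of_pow_mem 2 h)
    · exact Or.inr h
  have hcont1 : (X 1 : MvPolynomial (Fin 3) k) ∈ P → p1 k ≤ P := by
    intro h1 g hg
    rw [g.as_sum]
    apply Ideal.sum_mem
    intro m hm
    have h2 := hg m hm
    rw [prm1] at h2
    rcases h2 with h2 | h2
    · have h3 : monomial m (coeff m g) = monomial (m - Finsupp.single 0 1) (coeff m g) * X 0 := by
        rw [X, monomial_mul, mul_one, tsub_add_cancel_of_le]
        rw [Finsupp.single_le_iff]; omega
      rw [h3]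
      exact Ideal.mul_mem_left _ _ hX0
    · have h3 : monomial m (coeff m g) = monomial (m - Finsupp.single 1 1) (coeff m g) * X 1 := by
        rw [X, monomial_mul, mul_one, tsub_add_cancel_of_le]
        rw [Finsupp.single_le_iff]; omega
      rw [h3]
      exact Ideal.mul_mem_left _ _ h1
  have hcont2 : (X 2 : MvPolynomial (Fin 3) k) ∈ P → p2 k ≤ P := by
    intro h1 g hg
    rw [g.as_sum]
    apply Ideal.sum_mem
    intro m hm
    have h2 := hg m hm
    rw [prm2] at h2
    rcases h2 with h2 | h2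
    · have h3 : monomial m (coeff m g) = monomial (m - Finsupp.single 0 1) (coeff m g) * X 0 := by
        rw [X, monomial_mul, mul_one, tsub_add_cancel_of_le]
        rw [Finsupp.single_le_iff]; omega
      rw [h3]
      exact Ideal.mul_mem_left _ _ hX0
    · have h3 : monomial m (coeff m g) = monomial (m - Finsupp.single 2 1) (coeff m g) * X 2 := by
        rw [X, monomial_mul, mul_one, tsub_add_cancel_of_le]
        rw [Finsupp.single_le_iff]; omega
      rw [h3]
      exact Ideal.mul_mem_left _ _ h1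
  have hX1p2 : (X 1 : MvPolynomial (Fin 3) k) ∉ p2 k := by
    unfold p2
    rw [X, monomial_mem_mid, prm2]
    simp
  have hX2p1 : (X 2 : MvPolynomial (Fin 3) k) ∉ p1 k := by
    unfold p1
    rw [X, monomial_mem_mid, prm1]
    simp
  by_cases hf1 : f ∈ mid k (A1 1) (A1_up 1)
  · have hf2 : f ∉ mid k (A2 1) (A2_up 1) := by
      intro hf2
      apply hfI
      rw [ex_eq]
      intro m hm
      rw [Pw_one_iff]
      exact ⟨hf1 m hm, hf2 m hm⟩
    have hPle : P ≤ p2 k := by
      intro a ha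
      by_contra hap
      apply hf2
      apply prim2 1 hap
      have h1 := (hf a).mp ha
      rw [ex_eq] at h1
      exact fun m hm => Pw_A2 (h1 m hm)
    right
    apply le_antisymm hPle
    rcases hyz with h | h
    · exact absurd (hPle h) hX1p2
    · exact hcont2 h
  · have hPle : P ≤ p1 k := by
      intro a ha
      by_contra hap
      apply hf1
      apply prim1 1 hap
      have h1 := (hf a).mp ha
      rw [ex_eq] at h1
      exact fun m hm => Pw_A1 (h1 m hm)
    left
    apply le_antisymm hPle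
    rcases hyz with h | h
    · exact hcont1 h
    · exact absurd (hPle h) hX2p1

/-- exponents in the symbolic power -/
def Sy (n : ℕ) (m : Fin 3 →₀ ℕ) : Prop := A1 n m ∧ A2 n m

lemma Sy_up (n : ℕ) : Up (Sy n) := by
  rintro m m' h ⟨h1, h2⟩
  exact ⟨A1_up n m m' h h1, A2_up n m m' h h2⟩

lemma symbPow_eq (n : ℕ) : symbPow (ex k) n = mid k (Sy n) (Sy_up n) := by
  unfold symbPow
  apply le_antisymm
  · intro f hf m hm
    rw [Submodule.mem_iInf] at hf
    have h1 := hf (p1 k)
    rw [Submodule.mem_iInf] at h1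
    have h1' := h1 assoc1
    rw [contr1] at h1'
    have h2 := hf (p2 k)
    rw [Submodule.mem_iInf] at h2
    have h2' := h2 assoc2
    rw [contr2] at h2'
    exact ⟨h1' m hm, h2' m hm⟩
  · intro f hf
    rw [Submodule.mem_iInf]
    intro P
    rw [Submodule.mem_iInf]
    intro hP
    rcases assoc_cases P hP with rfl | rfl
    · rw [contr1]
      exact fun m hm => (hf m hm).1
    · rw [contr2]
      exact fun m hm => (hf m hm).2


lemma mid_sup {r : ℕ} {A B : (Fin r →₀ ℕ) → Prop} (hA : Up A) (hB : Up B)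
    (hAB : Up (fun m => A m ∨ B m)) :
    mid k A hA ⊔ mid k B hB = mid k (fun m => A m ∨ B m) hAB := by
  classical
  apply le_antisymm
  · apply sup_le
    · exact fun f hf m hm => Or.inl (hf m hm)
    · exact fun f hf m hm => Or.inr (hf m hm)
  · intro f hf
    rw [f.as_sum]
    apply Ideal.sum_mem
    intro m hm
    have h1 : ∀ w ∈ (monomial m (coeff m f)).support, w = m := by
      intro w hw
      have := support_monomial_subset hw
      rwa [Finset.mem_singleton] at this
    rcases hf m hm with h | h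
    · apply Ideal.mem_sup_left
      intro w hw
      rw [h1 w hw]; exact h
    · apply Ideal.mem_sup_right
      intro w hw
      rw [h1 w hw]; exact h

lemma maxIdeal_eq (r : ℕ) : maxIdeal k r = mid k (prm Finset.univ) (prm_up _) := by
  unfold maxIdeal
  ext f
  rw [← Set.image_univ, mem_ideal_span_X_image, mem_mid]
  unfold prm
  simp

lemma finrank_mid {r : ℕ} {A B : (Fin r →₀ ℕ) → Prop} (hA : Up A) (hB : Up B)
    (M : Finset (Fin r →₀ ℕ)) (hM : ∀ m, m ∈ M ↔ (A m ∧ ¬ B m)) :
    Module.finrank k (mid k A hA ⧸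
      Submodule.comap (Submodule.subtype (mid k A hA)) (mid k B hB)) = M.card := by
  classical
  let N := Submodule.comap (Submodule.subtype (mid k A hA)) (mid k B hB)
  let φ : (mid k A hA) →ₗ[k] (M → k) :=
    { toFun := fun f m => coeff m.1 f.1
      map_add' := by
        intro f g
        ext m
        exact coeff_add _ _ _
      map_smul' := by
        intro c f
        ext m
        exact coeff_smul _ _ _ }
  have hker : N.restrictScalars k = LinearMap.ker φ := by
    ext f
    rw [Submodule.restrictScalars_mem, LinearMap.mem_ker]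
    constructor
    · intro hf
      ext m
      show coeff m.1 f.1 = 0
      by_contra h
      have h1 : B m.1 := hf m.1 (mem_support_iff.mpr h)
      exact ((hM m.1).mp m.2).2 h1
    · intro hf m hm
      by_contra hB'
      have h1 : m ∈ M := (hM m).mpr ⟨f.2 m hm, hB'⟩
      have h2 := congrFun hf ⟨m, h1⟩
      exact mem_support_iff.mp hm h2
  have hsurj : Function.Surjective φ := by
    intro g
    have hmem : (∑ m : M, monomial m.1 (g m) : MvPolynomial (Fin r) k) ∈ mid k A hA := by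
      apply Ideal.sum_mem
      intro m _ w hw
      have := support_monomial_subset hw
      rw [Finset.mem_singleton] at this
      rw [this]
      exact ((hM m.1).mp m.2).1
    refine ⟨⟨_, hmem⟩, ?_⟩
    ext m
    show coeff m.1 (∑ m : M, monomial m.1 (g m) : MvPolynomial (Fin r) k) = g m
    rw [coeff_sum, Finset.sum_eq_single m]
    · rw [coeff_monomial, if_pos rfl]
    · intro b _ hb
      rw [coeff_monomial, if_neg]
      intro h
      exact hb (Subtype.ext h)
    · intro h
      exact absurd (Finset.mem_univ _) h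
  have e1 : (mid k A hA ⧸ N) ≃ₗ[k] (mid k A hA ⧸ N.restrictScalars k) :=
    (Submodule.Quotient.restrictScalarsEquiv k N).symm
  have e2 : (mid k A hA ⧸ N.restrictScalars k) ≃ₗ[k] (mid k A hA ⧸ LinearMap.ker φ) :=
    Submodule.quotEquivOfEq _ _ hker
  have e3 := φ.quotKerEquivOfSurjective hsurj
  rw [show Module.finrank k (mid k A hA ⧸
      Submodule.comap (Submodule.subtype (mid k A hA)) (mid k B hB)) =
      Module.finrank k (mid k A hA ⧸ N) from rfl]
  rw [((e1.trans e2).trans e3).finrank_eq, Module.finrank_fintype_fun_eq_card,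
    Fintype.card_coe]

/-- the exponents in `I^n + m I^(n)` -/
def Bd (n : ℕ) (m : Fin 3 →₀ ℕ) : Prop := Pw n m ∨ sm (prm Finset.univ) (Sy n) m

lemma Bd_up (n : ℕ) : Up (Bd n) := by
  rintro m m' h (h1 | h1)
  · exact Or.inl (Pw_up n m m' h h1)
  · exact Or.inr (sm_up (prm_up _) m m' h h1)

lemma finrank_congr {r : ℕ} {S S' T T' : Ideal (MvPolynomial (Fin r) k)} (h : S = S')
    (h' : T = T') : Module.finrank k (S ⧸ Submodule.comap (Submodule.subtype S) T) =
      Module.finrank k (S' ⧸ Submodule.comap (Submodule.subtype S') T') := by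
  subst h
  subst h'
  rfl

lemma sdef_eq (n : ℕ) (M : Finset (Fin 3 →₀ ℕ)) (hM : ∀ m, m ∈ M ↔ (Sy n m ∧ ¬ Bd n m)) :
    sdef (ex k) n = M.card := by
  rw [← finrank_mid (k := k) (Sy_up n) (Bd_up n) M hM]
  unfold sdef
  have h1 : ex k ^ n ⊔ maxIdeal k 3 * symbPow (ex k) n = mid k (Bd n) (Bd_up n) := by
    rw [ex_pow, maxIdeal_eq, symbPow_eq, mid_mul, mid_sup]
    rfl
  exact finrank_congr (symbPow_eq n) h1

lemma sm_iff (n : ℕ) (m : Fin 3 →₀ ℕ) : sm (prm Finset.univ) (Sy n) m ↔
    (1 ≤ m 0 ∧ Sy n (e3 (m 0 - 1) (m 1) (m 2))) ∨ (1 ≤ m 1 ∧ Sy n (e3 (m 0) (m 1 - 1) (m 2))) ∨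
    (1 ≤ m 2 ∧ Sy n (e3 (m 0) (m 1) (m 2 - 1))) := by
  constructor
  · rintro ⟨u, v, ⟨i, _, hi⟩, ⟨⟨hv1, hv2⟩, hv3⟩, rfl⟩
    unfold A2 at hv3
    unfold Sy A1 A2
    simp only [Finsupp.add_apply, e3_0, e3_1, e3_2]
    fin_cases i
    · left
      have hi' : u 0 ≠ 0 := hi
      omega
    · right; left
      have hi' : u 1 ≠ 0 := hi
      omega
    · right; right
      have hi' : u 2 ≠ 0 := hi
      omega
  · rintro (⟨h1, h2⟩ | ⟨h1, h2⟩ | ⟨h1, h2⟩)
    · refine ⟨e3 1 0 0, _, ⟨0, Finset.mem_univ _, by simp⟩, h2, ?_⟩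
      apply ext3 <;> simp only [Finsupp.add_apply, e3_0, e3_1, e3_2] <;> omega
    · refine ⟨e3 0 1 0, _, ⟨1, Finset.mem_univ _, by simp⟩, h2, ?_⟩
      apply ext3 <;> simp only [Finsupp.add_apply, e3_0, e3_1, e3_2] <;> omega
    · refine ⟨e3 0 0 1, _, ⟨2, Finset.mem_univ _, by simp⟩, h2, ?_⟩
      apply ext3 <;> simp only [Finsupp.add_apply, e3_0, e3_1, e3_2] <;> omega

/-- degree bound for the ordinary power -/
lemma Pw_deg {n : ℕ} {m : Fin 3 →₀ ℕ} (h : Pw n m) : 3 * n ≤ m 0 + m 1 + m 2 := by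
  obtain ⟨a, b, c, d, h1, h2, h3, h4⟩ := h
  omega


/-- the least `y` for given `x` -/
def Yf (n x : ℕ) : ℕ := max ((3 * n - x + 1) / 2) (2 * n - x)
/-- the least `z` for given `x` -/
def Zf (n x : ℕ) : ℕ := (2 * n - x + 1) / 2

/-- the values of `x` at the minimal generators outside the ordinary power -/
def Xp (n x : ℕ) : Prop :=
  2 ≤ x ∧ x < 3 * n ∧ (x ≤ n ∨ (x ≤ 2 * n ∧ (x % 2 = n % 2 ∨ x % 2 = 0)) ∨ x % 2 = n % 2)

lemma e3_eta (m : Fin 3 →₀ ℕ) : e3 (m 0) (m 1) (m 2) = m := ext3 rfl rfl rfl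

lemma good_iff (n : ℕ) (hn : 2 ≤ n) (m : Fin 3 →₀ ℕ) :
    (Sy n m ∧ ¬ Bd n m) ↔ (Xp n (m 0) ∧ m 1 = Yf n (m 0) ∧ m 2 = Zf n (m 0)) := by
  unfold Bd
  rw [sm_iff]
  constructor
  · rintro ⟨hS, hB⟩
    push Not at hB
    obtain ⟨hP, h0, h1, h2⟩ := hB
    have hS' := hS
    obtain ⟨⟨a1, a2⟩, a3⟩ := hS
    unfold A2 at a3
    -- z is minimal
    have hz : m 2 = Zf n (m 0) := by
      unfold Zf
      by_contra hne
      have hz1 : 1 ≤ m 2 := by omega
      apply h2 hz1
      unfold Sy A1 A2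
      simp only [e3_0, e3_1, e3_2]
      omega
    have hy : m 1 = Yf n (m 0) := by
      unfold Yf
      by_contra hne
      have hy1 : 1 ≤ m 1 := by omega
      apply h1 hy1
      unfold Sy A1 A2
      simp only [e3_0, e3_1, e3_2]
      omega
    refine ⟨?_, hy, hz⟩
    unfold Yf at hy
    unfold Zf at hz
    have hx : ∀ (_ : 1 ≤ m 0), ¬ (3 * n ≤ m 0 - 1 + 2 * m 1 ∧ 2 * n ≤ m 0 - 1 + m 1 ∧
        2 * n ≤ m 0 - 1 + 2 * m 2) := by
      intro hx1 hc
      apply h0 hx1
      unfold Sy A1 A2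
      simp only [e3_0, e3_1, e3_2]
      exact ⟨⟨hc.1, hc.2.1⟩, hc.2.2⟩
    unfold Xp
    have hge : 2 ≤ m 0 := by
      by_contra hlt
      apply hP
      have : m 0 = 0 ∨ m 0 = 1 := by omega
      rcases this with h | h
      · exact ⟨0, 0, 0, n, by omega, by omega, by omega, by omega⟩
      · exact ⟨0, 0, 1, n - 1, by omega, by omega, by omega, by omega⟩
    have hlt : m 0 < 3 * n := by
      by_contra hge3
      apply hP
      exact ⟨n, 0, 0, 0, by omega, by omega, by omega, by omega⟩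
    refine ⟨hge, hlt, ?_⟩
    have := hx (by omega)
    omega
  · rintro ⟨⟨x1, x2, x3⟩, hy, hz⟩
    unfold Yf at hy
    unfold Zf at hz
    refine ⟨?_, ?_⟩
    · unfold Sy A1 A2
      omega
    · push Not
      refine ⟨?_, ?_, ?_, ?_⟩
      · intro hP
        have := Pw_deg hP
        omega
      · intro _ hc
        unfold Sy A1 A2 at hc
        simp only [e3_0, e3_1, e3_2] at hc
        omega
      · intro _ hc
        unfold Sy A1 A2 at hc
        simp only [e3_0, e3_1, e3_2] at hc
        omega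
      · intro _ hc
        unfold Sy A1 A2 at hc
        simp only [e3_0, e3_1, e3_2] at hc
        omega


lemma sdef_card (n : ℕ) (hn : 2 ≤ n) (Xs : Finset ℕ) (hX : ∀ x, x ∈ Xs ↔ Xp n x) :
    sdef (ex k) n = Xs.card := by
  classical
  have hinj : Function.Injective (fun x => e3 x (Yf n x) (Zf n x)) := by
    intro x y h
    exact DFunLike.congr_fun h 0
  rw [sdef_eq (k := k) n (Xs.image (fun x => e3 x (Yf n x) (Zf n x))) ?_,
    Finset.card_image_of_injective _ hinj]
  intro m
  rw [good_iff n hn, Finset.mem_image]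
  constructor
  · rintro ⟨x, hx, rfl⟩
    exact ⟨(hX x).mp hx, rfl, rfl⟩
  · rintro ⟨h1, h2, h3⟩
    refine ⟨m 0, (hX _).mpr h1, ?_⟩
    exact ext3 rfl h2.symm h3.symm

lemma sdef_even (t : ℕ) (ht : 1 ≤ t) : sdef (ex k) (2 * t) = 4 * t - 2 := by
  classical
  rw [sdef_card (2 * t) (by omega)
    (Finset.Icc 2 (2 * t) ∪ (Finset.range (2 * t - 1)).image (fun i => 2 * t + 2 + 2 * i)) ?_]
  · rw [Finset.card_union_of_disjoint, Nat.card_Icc, Finset.card_image_of_injective,
      Finset.card_range]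
    · omega
    · intro x y h
      have : 2 * t + 2 + 2 * x = 2 * t + 2 + 2 * y := h
      omega
    · rw [Finset.disjoint_left]
      intro x hx hx'
      rw [Finset.mem_Icc] at hx
      rw [Finset.mem_image] at hx'
      obtain ⟨i, hi, rfl⟩ := hx'
      omega
  · intro x
    rw [Finset.mem_union, Finset.mem_Icc, Finset.mem_image]
    unfold Xp
    constructor
    · rintro (h | ⟨i, hi, rfl⟩)
      · omega
      · rw [Finset.mem_range] at hi
        omega
    · intro h
      by_cases hx : x ≤ 2 * t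
      · left; omega
      · right
        refine ⟨(x - 2 * t - 2) / 2, ?_, ?_⟩
        · rw [Finset.mem_range]; omega
        · omega

lemma sdef_odd (t : ℕ) (ht : 1 ≤ t) : sdef (ex k) (2 * t + 1) = 5 * t + 1 := by
  classical
  rw [sdef_card (2 * t + 1) (by omega)
    (Finset.Icc 2 (4 * t + 2) ∪ (Finset.range t).image (fun i => 4 * t + 3 + 2 * i)) ?_]
  · rw [Finset.card_union_of_disjoint, Nat.card_Icc, Finset.card_image_of_injective,
      Finset.card_range]
    · omega
    · intro x y h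
      have : 4 * t + 3 + 2 * x = 4 * t + 3 + 2 * y := h
      omega
    · rw [Finset.disjoint_left]
      intro x hx hx'
      rw [Finset.mem_Icc] at hx
      rw [Finset.mem_image] at hx'
      obtain ⟨i, hi, rfl⟩ := hx'
      omega
  · intro x
    rw [Finset.mem_union, Finset.mem_Icc, Finset.mem_image]
    unfold Xp
    constructor
    · rintro (h | ⟨i, hi, rfl⟩)
      · omega
      · rw [Finset.mem_range] at hi
        omega
    · intro h
      by_cases hx : x ≤ 4 * t + 2
      · left; omega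
      · right
        refine ⟨(x - 4 * t - 3) / 2, ?_, ?_⟩
        · rw [Finset.mem_range]; omega
        · omega

end example_

/-- `f` is eventually quasi-polynomial of period `p` with branches `P 0, …, P (p-1)`. -/
def HasBranches (f : ℕ → ℕ) (p : ℕ) (P : ℕ → Polynomial ℚ) : Prop :=
  0 < p ∧ ∃ N, ∀ n ≥ N, (f n : ℚ) = (P (n % p)).eval (n : ℚ)

/-- **Main theorem.** Over every field `k` there is a monomial ideal `I` of `k[x,y,z]`, namely
`(x^3, x^2 y, x y z, y^2 z)`, with `sdef_I(2t) = 4t - 2` and `sdef_I(2t+1) = 5t + 1` for `t ≥ 1`.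
So the symbolic defect is eventually quasi-polynomial of period `2` with two branches of degree
`1` which have different leading coefficients. -/
theorem result (k : Type) [Field k] :
    ∃ I : Ideal (MvPolynomial (Fin 3) k), IsMonomialIdeal I ∧
      (∀ t, 1 ≤ t → sdef I (2 * t) = 4 * t - 2 ∧ sdef I (2 * t + 1) = 5 * t + 1) ∧
      ∃ P : ℕ → Polynomial ℚ, HasBranches (sdef I) 2 P ∧ (P 0).natDegree = 1 ∧
        (P 1).natDegree = 1 ∧ (P 0).coeff 1 ≠ (P 1).coeff 1 := by
  refine ⟨ex k, ⟨gensE, rfl⟩, fun t ht => ⟨sdef_even t ht, sdef_odd t ht⟩,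
    fun i => if i = 0 then Polynomial.C 2 * Polynomial.X + Polynomial.C (-2)
      else Polynomial.C (5 / 2) * Polynomial.X + Polynomial.C (-(3 / 2)), ⟨by norm_num, 2, ?_⟩,
    ?_, ?_, ?_⟩
  · intro n hn
    rcases Nat.even_or_odd' n with ⟨t, rfl | rfl⟩
    · rw [sdef_even t (by omega)]
      have h0 : (2 * t) % 2 = 0 := by omega
      simp only [h0]
      rw [if_pos trivial]
      simp only [Polynomial.eval_add, Polynomial.eval_mul, Polynomial.eval_C, Polynomial.eval_X]
      rw [Nat.cast_sub (by omega)]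
      push_cast
      ring
    · rw [sdef_odd t (by omega)]
      have h0 : (2 * t + 1) % 2 = 1 := by omega
      simp only [h0]
      rw [if_neg one_ne_zero]
      simp only [Polynomial.eval_add, Polynomial.eval_mul, Polynomial.eval_C, Polynomial.eval_X]
      push_cast
      ring
  · simp only [if_pos]
    exact Polynomial.natDegree_linear (by norm_num)
  · simp only [one_ne_zero, if_false]
    exact Polynomial.natDegree_linear (by norm_num)
  · simp only [one_ne_zero, if_false, if_pos]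
    simp only [Polynomial.coeff_add, Polynomial.coeff_C_mul, Polynomial.coeff_X_one,
      Polynomial.coeff_C_succ]
    norm_num

end Pool.Agent.Results.MP_a342dd_al.SdefectBranches
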